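import Pool.Agent.V5helper87.LP.Defs

/-!
# Arcs in equal characteristic with given intersection numbers
-/

set_option autoImplicit false

open CategoryTheory CategoryTheory.Limits AlgebraicGeometry IsLocalRing

universe u v

namespace Pool.Agent.V5helper87.LP

section ps

variable (k : Type) [Field k]

instance isAdicComplete_ps : IsAdicComplete (maximalIdeal (PowerSeries k)) (PowerSeries k) := by
  rw [PowerSeries.maximalIdeal_eq_span_X]
  infer_instance

instance henselian_ps : HenselianLocalRing (PowerSeries k) where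
  is_henselian f hf a₀ h₁ h₂ := by
    have h3 : HenselianRing (PowerSeries k) (maximalIdeal (PowerSeries k)) := inferInstance
    exact h3.is_henselian f hf a₀ h₁ (h₂.map _)

/-- The ring of power series over a finite field. -/
noncomputable def psTrait [Finite k] : Trait where
  O := PowerSeries k
  finite := Finite.of_equiv k (PowerSeries.residueFieldOfPowerSeries (k := k)).symm.toEquiv

variable {k}

lemma residue_ps (f : PowerSeries k) : PowerSeries.residueFieldOfPowerSeries
    (residue (PowerSeries k) f) = PowerSeries.constantCoeff f := rfl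

end ps

section arc

variable {R A : Type} [CommRing R] [CommRing A]

/-- Existence of arcs in equal characteristic with the same intersection numbers. -/
theorem exists_arc (c : Chart R A) (B : Trait) (t : A →+* B.O) (ht : t c.eqn ≠ 0) :
    ∃ (t' : A →+* (psTrait (ResidueField B.O)).O), t' c.eqn ≠ 0 ∧
      SamePoint B (psTrait (ResidueField B.O)) t t' ∧
      SameMult c B (psTrait (ResidueField B.O)) t t' := by
  classical
  set k := ResidueField B.O with hk
  let ρ : A →+* k := (residue B.O).comp t
  have hρ : ∀ a, ρ a = residue B.O (t a) := fun a => rfl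
  -- the intersection numbers
  have hne : ∀ j ∈ c.J, t (c.x j) ≠ 0 := by
    intro j hj h0
    apply ht
    rw [Chart.eqn, map_prod]
    exact Finset.prod_eq_zero hj h0
  have hm : ∀ j ∈ c.J, ∃ m : ℕ, IsDiscreteValuationRing.addVal B.O (t (c.x j)) = m := by
    intro j hj
    have h1 : IsDiscreteValuationRing.addVal B.O (t (c.x j)) ≠ ⊤ := fun h =>
      hne j hj (IsDiscreteValuationRing.addVal_eq_top_iff.1 h)
    exact (ENat.ne_top_iff_exists.1 h1).imp fun n hn => hn.symm
  choose! m hm using hm
  let y : Fin c.d → PowerSeries k := fun j =>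
    if j ∈ c.J ∧ ρ (c.x j) = 0 then PowerSeries.X ^ m j else PowerSeries.C (ρ (c.x j))
  have hy0 : ∀ j, PowerSeries.constantCoeff (y j) = ρ (c.x j) := by
    intro j
    by_cases h : j ∈ c.J ∧ ρ (c.x j) = 0
    · simp only [y, if_pos h]
      have hmj : m j ≠ 0 := by
        intro h0
        have h1 := hm j h.1
        rw [h0, Nat.cast_zero, IsDiscreteValuationRing.addVal_eq_zero_iff] at h1
        have h2 := h.2
        rw [hρ, residue_eq_zero_iff, mem_maximalIdeal, mem_nonunits_iff] at h2
        exact h2 h1
      rw [map_pow, PowerSeries.constantCoeff_X, zero_pow hmj, h.2]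
    · simp only [y, if_neg h, PowerSeries.constantCoeff_C]
  -- algebra structures
  letI alg1 : Algebra (MvPolynomial (Fin c.d) R) A := (MvPolynomial.eval₂Hom c.φ c.x).toAlgebra
  letI alg2 : Algebra (MvPolynomial (Fin c.d) R) (PowerSeries k) :=
    (MvPolynomial.eval₂Hom ((PowerSeries.C).comp (ρ.comp c.φ)) y).toAlgebra
  have hsm : Algebra.FormallySmooth (MvPolynomial (Fin c.d) R) A := by
    have h1 : Algebra.Etale (MvPolynomial (Fin c.d) R) A := c.etale
    infer_instance
  let I : Ideal (PowerSeries k) := maximalIdeal (PowerSeries k)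
  have hI : ∀ f g : PowerSeries k, PowerSeries.constantCoeff f = PowerSeries.constantCoeff g →
      Ideal.Quotient.mk I f = Ideal.Quotient.mk I g := by
    intro f g h
    rw [Ideal.Quotient.eq]
    have : f - g ∈ RingHom.ker (PowerSeries.constantCoeff (R := k)) := by
      rw [RingHom.mem_ker, map_sub, h, sub_self]
    rwa [PowerSeries.ker_coeff_eq_max_ideal] at this
  have hI' : ∀ f g : PowerSeries k, Ideal.Quotient.mk I f = Ideal.Quotient.mk I g →
      PowerSeries.constantCoeff f = PowerSeries.constantCoeff g := by
    intro f g h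
    rw [Ideal.Quotient.eq] at h
    have h2 : f - g ∈ RingHom.ker (PowerSeries.constantCoeff (R := k)) := by
      rwa [PowerSeries.ker_coeff_eq_max_ideal]
    rw [RingHom.mem_ker, map_sub, sub_eq_zero] at h2
    exact h2
  let f0 : A →+* PowerSeries k ⧸ I := (Ideal.Quotient.mk I).comp ((PowerSeries.C).comp ρ)
  have hf0 : ∀ r : MvPolynomial (Fin c.d) R, f0 (algebraMap _ A r) =
      algebraMap (MvPolynomial (Fin c.d) R) (PowerSeries k ⧸ I) r := by
    intro r
    have h1 : f0.comp (MvPolynomial.eval₂Hom c.φ c.x) = (Ideal.Quotient.mk I).comp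
        (MvPolynomial.eval₂Hom ((PowerSeries.C).comp (ρ.comp c.φ)) y) := by
      apply MvPolynomial.ringHom_ext
      · intro r
        simp only [RingHom.comp_apply, MvPolynomial.eval₂Hom_C, f0]
      · intro j
        simp only [RingHom.comp_apply, MvPolynomial.eval₂Hom_X', f0]
        apply hI
        rw [hy0, PowerSeries.constantCoeff_C]
    exact RingHom.congr_fun h1 r
  let f : A →ₐ[MvPolynomial (Fin c.d) R] PowerSeries k ⧸ I := { f0 with commutes' := hf0 }
  obtain ⟨g, hg⟩ := Algebra.FormallySmooth.exists_mkₐ_comp_eq_of_isAdicComplete f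
  have hgc : ∀ a, PowerSeries.constantCoeff (g a) = ρ a := by
    intro a
    have h1 : Ideal.Quotient.mk I (g a) = Ideal.Quotient.mk I (PowerSeries.C (ρ a)) := by
      have := congrArg (fun F => F a) hg
      exact this
    rw [hI' _ _ h1, PowerSeries.constantCoeff_C]
  have hgx : ∀ j, g (c.x j) = y j := by
    intro j
    have h1 := g.commutes (MvPolynomial.X j)
    have h2 : algebraMap (MvPolynomial (Fin c.d) R) A (MvPolynomial.X j) = c.x j :=
      MvPolynomial.eval₂Hom_X' _ _ j
    have h3 : algebraMap (MvPolynomial (Fin c.d) R) (PowerSeries k) (MvPolynomial.X j) = y j :=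
      MvPolynomial.eval₂Hom_X' _ _ j
    rw [h2, h3] at h1
    exact h1
  have hy1 : ∀ j ∈ c.J, y j ≠ 0 := by
    intro j hj
    by_cases h : j ∈ c.J ∧ ρ (c.x j) = 0
    · simp only [y, if_pos h]
      exact pow_ne_zero _ PowerSeries.X_ne_zero
    · simp only [y, if_neg h]
      intro h0
      apply h
      refine ⟨hj, ?_⟩
      have := congrArg (PowerSeries.constantCoeff (R := k)) h0
      rwa [PowerSeries.constantCoeff_C, map_zero] at this
  refine ⟨g.toRingHom, ?_, ?_, ?_⟩
  · show g c.eqn ≠ 0
    rw [Chart.eqn, map_prod]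
    apply Finset.prod_ne_zero_iff.2
    intro j hj
    rw [hgx]
    exact hy1 j hj
  · refine ⟨(PowerSeries.residueFieldOfPowerSeries (k := k)).symm, fun a => ?_⟩
    have h : (PowerSeries.residueFieldOfPowerSeries (k := k)).symm (ρ a) =
        residue (PowerSeries k) (g a) := by
      rw [RingEquiv.symm_apply_eq, residue_ps, hgc]
    exact h
  · intro j hj
    show _ = IsDiscreteValuationRing.addVal (PowerSeries k) (g (c.x j))
    rw [hgx, hm j hj]
    by_cases h : j ∈ c.J ∧ ρ (c.x j) = 0
    · simp only [y, if_pos h]
      exact (PowerSeries.X_irreducible.addVal_pow (m j)).symm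
    · simp only [y, if_neg h]
      have h1 : ρ (c.x j) ≠ 0 := fun h0 => h ⟨hj, h0⟩
      have h2 : IsUnit (PowerSeries.C (ρ (c.x j))) := (isUnit_iff_ne_zero.2 h1).map _
      rw [IsDiscreteValuationRing.addVal_eq_zero_iff.2 h2, ← hm j hj,
        IsDiscreteValuationRing.addVal_eq_zero_iff]
      by_contra h3
      exact h1 ((residue_eq_zero_iff _).2 ((mem_maximalIdeal _).2 h3))

end arc

end Pool.Agent.V5helper87.LP
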