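import Pool.Agent.V5helper87.LP.Rep

/-!
# Smooth proper families over arithmetic schemes and their degenerations
-/

set_option autoImplicit false

open CategoryTheory CategoryTheory.Limits AlgebraicGeometry IsLocalRing

universe u v

namespace Pool.Agent.V5helper87.LP

/-- A henselian discrete valuation ring `O` with finite residue field. -/
structure Trait where
  /-- the ring -/
  O : Type
  [commRing : CommRing O]
  [isDomain : IsDomain O]
  [isDVR : IsDiscreteValuationRing O]
  [henselian : HenselianLocalRing O]
  [finite : Finite (ResidueField O)]

attribute [instance] Trait.commRing Trait.isDomain Trait.isDVR Trait.henselian Trait.finite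

namespace Trait

variable (B : Trait)

/-- The fraction field. -/
abbrev K : Type := FractionRing B.O

/-- The number of elements of the residue field. -/
noncomputable def q : ℕ := Nat.card (ResidueField B.O)

/-- The residue characteristic. -/
noncomputable def p : ℕ := ringChar (ResidueField B.O)

/-- The inclusion of the generic point into the spectrum of `O`. -/
noncomputable def gen : Spec (.of B.K) ⟶ Spec (.of B.O) :=
  Spec.map (CommRingCat.ofHom (algebraMap B.O B.K))

end Trait

/-- The morphism `f` is smooth and proper. -/
structure SmoothProper {X S : Scheme.{0}} (f : X ⟶ S) : Prop where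
  smooth : Smooth f
  proper : IsProper f

/-- `X ⟶ T` is the fibre (the base change) of the family `g` over the point `y : T ⟶ Y`. -/
def IsFibre {𝒴 Y X T : Scheme.{0}} (g : 𝒴 ⟶ Y) (y : T ⟶ Y) (str : X ⟶ T) : Prop :=
  ∃ top : X ⟶ 𝒴, IsPullback top str g y

/-- Étale coordinates `x` on the `R`-algebra `A`, and the divisor `D = ⋃ D_j`, where `D_j` is given by
`x j = 0`, for the `j` in `J`: the homomorphism `R[x_1, ..., x_d] → A` is étale. So `D` is a divisor
with strict normal crossings relative to `R`. -/
structure Chart (R A : Type) [CommRing R] [CommRing A] where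
  /-- the structure homomorphism -/
  φ : R →+* A
  /-- the number of coordinates -/
  d : ℕ
  /-- the coordinates -/
  x : Fin d → A
  etale : (MvPolynomial.eval₂Hom φ x).Etale
  /-- the components of the divisor -/
  J : Finset (Fin d)

/-- The equation of the divisor. -/
def Chart.eqn {R A : Type} [CommRing R] [CommRing A] (c : Chart R A) : A := ∏ j ∈ c.J, c.x j

/-- The structure homomorphism from `R` to the ring of functions on an open subset of a scheme over
`R`. -/
noncomputable def strHom {R : Type} [CommRing R] {P : Scheme.{0}} (π : P ⟶ Spec (.of R))
    (W : P.Opens) : R →+* Γ(P, W) :=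
  ((Scheme.ΓSpecIso (.of R)).inv ≫ π.appLE ⊤ W (by simp)).hom

/-- The `R`-scheme `P` is smooth, and the complement of the open subscheme `j : U ⟶ P` is a divisor with
strict normal crossings relative to `R`: locally, there are étale coordinates such that the
complement is given by the vanishing of some of the coordinates. -/
def IsSNC {R : Type} [CommRing R] {P U : Scheme.{0}} (π : P ⟶ Spec (.of R)) (j : U ⟶ P)
    [IsOpenImmersion j] : Prop :=
  ∀ s : P, ∃ (W : P.Opens) (c : Chart R Γ(P, W)), IsAffineOpen W ∧ s ∈ W ∧ c.φ = strHom π W ∧
    j.opensRange ⊓ W = P.basicOpen c.eqn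

section arcs

variable {A : Type} [CommRing A]

/-- The point with values in the field `K` of the complement `Spec A[1/f]` of the divisor `f = 0`,
for an arc `t : A → O` which is not contained in the divisor. -/
noncomputable def genPt (f : A) (B : Trait) (t : A →+* B.O) (ht : t f ≠ 0) :
    Spec (.of B.K) ⟶ Spec (.of (Localization.Away f)) :=
  Spec.map (CommRingCat.ofHom (IsLocalization.Away.lift (S := Localization.Away f) f
    (g := (algebraMap B.O B.K).comp t)
    (isUnit_iff_ne_zero.2 fun h => ht (by simpa using h))))

/-- The arcs `t` and `t'` pass through the same point of the special fibre. -/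
def SamePoint (B B' : Trait) (t : A →+* B.O) (t' : A →+* B'.O) : Prop :=
  ∃ ε : ResidueField B.O ≃+* ResidueField B'.O, ∀ a, ε (residue B.O (t a)) = residue B'.O (t' a)

/-- The arcs `t` and `t'` have the same intersection numbers with the components of the divisor. -/
def SameMult {R : Type} [CommRing R] (c : Chart R A) (B B' : Trait) (t : A →+* B.O)
    (t' : A →+* B'.O) : Prop :=
  ∀ j ∈ c.J, IsDiscreteValuationRing.addVal B.O (t (c.x j)) =
    IsDiscreteValuationRing.addVal B'.O (t' (c.x j))

end arcs

/-- The data of a cohomology theory: the cohomology groups `H^m(X_{\bar K}, Ω)` (`Ω` the algebraic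
closure of `ℚ_ℓ`) of the schemes `X` over the fraction fields `K` of henselian discrete valuation
rings `O` with finite residue field, with the action of a geometric Frobenius element and the
monodromy operator. -/
structure CohData (Ω : Type u) [Field Ω] where
  /-- the cohomology groups -/
  H : ∀ (B : Trait) {X : Scheme.{0}}, (X ⟶ Spec (.of B.K)) → ℕ → Rep.{u, v} Ω

/-- Finiteness: the cohomology groups of smooth proper varieties have finite dimension. -/
def CohData.Finite {Ω : Type u} [Field Ω] (T : CohData.{u, v} Ω) (ℓ : ℕ) : Prop :=
  ∀ (B : Trait) {X : Scheme.{0}} (str : X ⟶ Spec (.of B.K)), B.p ≠ ℓ → SmoothProper str →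
    ∀ m, FiniteDimensional Ω (T.H B str m).V

/-- Deligne's theorem (the weight-monodromy conjecture in equal characteristic): for smooth proper
varieties over a field `K` of positive characteristic, `H^m` is mw pure of weight `m`. -/
def CohData.Deligne {Ω : Type u} [Field Ω] [CharZero Ω] (T : CohData.{u, v} Ω) (ℓ : ℕ) : Prop :=
  ∀ (B : Trait) {X : Scheme.{0}} (str : X ⟶ Spec (.of B.K)), B.p ≠ ℓ → ¬ CharZero B.O →
    SmoothProper str → ∀ m : ℕ, (T.H B str m).IsPure B.q m

/-- Proper and smooth base change, and the structure of the tame fundamental group (Abhyankar's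
lemma, purity of the branch locus). Let `R` be a Dedekind domain of characteristic zero, `A` an
`R`-algebra with étale coordinates `x_1, ..., x_d`, `D` the divisor given by the product of some
coordinates, and `g` a smooth proper family over `Y`, `ψ` a morphism from the complement of `D` in
`Spec A` to `Y`. Let `t : Spec O → Spec A` and `t' : Spec O' → Spec A` be arcs not contained in `D`,
which pass through the same point of a closed fibre and have the same intersection numbers with
the components of `D`. Then the cohomology groups of the fibres of the family over the generic points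
of the two arcs are comparable: both are given by the representation of the fundamental group of
the complement of `D` in the henselization, an extension of the Galois group of the residue field by
the product of copies of the group of roots of unity of order prime to the residue
characteristic. -/
def CohData.TameMonodromy {Ω : Type u} [Field Ω] (T : CohData.{u, v} Ω) (ℓ : ℕ) : Prop :=
  ∀ (R A : Type) [CommRing R] [IsDedekindDomain R] [CharZero R] [CommRing A] (c : Chart R A)
    {𝒴 Y : Scheme.{0}} (g : 𝒴 ⟶ Y), SmoothProper g →
  ∀ (ψ : Spec (.of (Localization.Away c.eqn)) ⟶ Y) (B B' : Trait) (t : A →+* B.O)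
    (t' : A →+* B'.O) (ht : t c.eqn ≠ 0) (ht' : t' c.eqn ≠ 0), B.p ≠ ℓ → SamePoint B B' t t' →
    SameMult c B B' t t' →
  ∀ {X X' : Scheme.{0}} (str : X ⟶ Spec (.of B.K)) (str' : X' ⟶ Spec (.of B'.K)),
    IsFibre g (genPt c.eqn B t ht ≫ ψ) str → IsFibre g (genPt c.eqn B' t' ht' ≫ ψ) str' →
  ∀ m, Comparable B'.q (T.H B str m) (T.H B' str' m)

/-- The known properties of `ℓ`-adic cohomology. -/
structure IsEtaleCohomology {Ω : Type u} [Field Ω] [CharZero Ω] (T : CohData.{u, v} Ω) (ℓ : ℕ) :
    Prop where
  finite : T.Finite ℓ
  deligne : T.Deligne ℓ
  tame : T.TameMonodromy ℓ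

end Pool.Agent.V5helper87.LP
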