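import Pool.Agent.Y143.Mon
import Pool.Agent.Y163.MW.WN

/-!
# Change of the Frobenius element by an element of the tame group

If `h Φ = Φ h ^ q` and the eigenvalues of `Φ` are Weil numbers of weight `w`, then so are the
eigenvalues of `Φ h`.
-/

set_option autoImplicit false

namespace Pool.Agent.V5helper87.LP

open Module Pool.Agent.Y143 Pool.Agent.Y163.MW

universe u v

section finite

variable {Ω : Type u} [Field Ω] {G : Type v} [AddCommGroup G] [Module Ω G]

lemma exists_eigen [IsAlgClosed Ω] [FiniteDimensional Ω G] (T : Module.End Ω G)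
    (S : Submodule Ω G) (hS : S ≠ ⊥) (hT : ∀ x ∈ S, T x ∈ S) :
    ∃ (μ : Ω) (x : G), x ∈ S ∧ x ≠ 0 ∧ T x = μ • x := by
  have hnt : Nontrivial S := Submodule.nontrivial_iff_ne_bot.2 hS
  obtain ⟨μ, hμ⟩ := Module.End.exists_eigenvalue (T.restrict hT)
  obtain ⟨x, hx⟩ := hμ.exists_hasEigenvector
  refine ⟨μ, x, x.2, ?_, ?_⟩
  · intro h0
    exact hx.2 (Subtype.ext h0)
  · exact congrArg Subtype.val hx.apply_eq_smul

lemma hasEigen {T : Module.End Ω G} {μ : Ω} {x : G} (hx : x ≠ 0) (h : T x = μ • x) :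
    T.HasEigenvalue μ :=
  Module.End.hasEigenvalue_of_hasEigenvector ⟨Module.End.mem_eigenspace_iff.2 h, hx⟩

lemma eigen_of_pow [IsAlgClosed Ω] [FiniteDimensional Ω G] {T : Module.End Ω G} {n : ℕ}
    (hn : 0 < n) {μ : Ω} {x : G} (hx : x ≠ 0) (h : (T ^ n) x = μ • x) :
    ∃ (ν : Ω) (y : G), y ≠ 0 ∧ T y = ν • y ∧ ν ^ n = μ := by
  have h1 : μ ∈ spectrum Ω (T ^ n) := (hasEigen hx h).mem_spectrum
  rw [spectrum.map_pow_of_pos T hn] at h1
  obtain ⟨ν, hν, rfl⟩ := h1
  obtain ⟨y, hy⟩ := (Module.End.HasEigenvalue.of_mem_spectrum hν).exists_hasEigenvector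
  exact ⟨ν, y, hy.2, hy.apply_eq_smul, rfl⟩

/-- The eigenvalues of `h` are roots of unity if `h Φ = Φ h ^ q`. -/
lemma root_unity [FiniteDimensional Ω G] {Φ h : Module.End Ω G} {q : ℕ} (hq : 1 < q)
    (hΦ : Function.Injective Φ) (hh : Function.Injective h)
    (hc : ∀ x, h (Φ x) = Φ ((h ^ q) x)) {c : Ω} {x : G} (hx : x ≠ 0) (hcx : h x = c • x) :
    ∃ n : ℕ, 0 < n ∧ c ^ n = 1 := by
  have hc0 : c ≠ 0 := by
    rintro rfl
    apply hx
    apply hh
    rw [hcx, zero_smul, map_zero]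
  have hpow : ∀ (n : ℕ) (c : Ω) (x : G), h x = c • x → (h ^ n) x = c ^ n • x := by
    intro n c x hx
    induction n with
    | zero => simp
    | succ n ih => rw [pow_succ', Module.End.mul_apply, ih, map_smul, hx, smul_smul, pow_succ]
  have key : ∀ k : ℕ, ∃ y : G, y ≠ 0 ∧ h y = c ^ (q ^ k) • y := by
    intro k
    induction k with
    | zero => exact ⟨x, hx, by rw [pow_zero, pow_one, hcx]⟩
    | succ k ih =>
      obtain ⟨y, hy, hy'⟩ := ih
      refine ⟨Φ y, fun h0 => hy (hΦ (by rw [h0, map_zero])), ?_⟩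
      rw [hc, hpow q _ y hy', map_smul, ← pow_mul, ← pow_succ]
  have hfin : (Set.range fun k : ℕ => c ^ (q ^ k)).Finite := by
    apply (Module.End.finite_hasEigenvalue h).subset
    rintro _ ⟨k, rfl⟩
    obtain ⟨y, hy, hy'⟩ := key k
    exact hasEigen hy hy'
  have hninj : ¬ Function.Injective (fun k : ℕ => c ^ (q ^ k)) := by
    intro hinj
    exact Set.infinite_range_of_injective hinj hfin
  rw [Function.Injective] at hninj
  push Not at hninj
  obtain ⟨a, b, hab, hne⟩ := hninj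
  have main : ∀ a b : ℕ, a < b → c ^ (q ^ a) = c ^ (q ^ b) → ∃ n : ℕ, 0 < n ∧ c ^ n = 1 := by
    intro a b hlt he
    have h1 : q ^ a < q ^ b := Nat.pow_lt_pow_right hq hlt
    refine ⟨q ^ b - q ^ a, by omega, ?_⟩
    have h2 : c ^ (q ^ a) * c ^ (q ^ b - q ^ a) = c ^ (q ^ a) * 1 := by
      rw [← pow_add, mul_one, he]
      congr 1
      omega
    exact mul_left_cancel₀ (pow_ne_zero _ hc0) h2
  rcases lt_or_gt_of_ne hne with h1 | h1
  · exact main a b h1 hab
  · exact main b a h1 hab.symm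

end finite

section weil

variable {Ω : Type u} [Field Ω] [CharZero Ω] {G : Type v} [AddCommGroup G] [Module Ω G]

/-- All eigenvalues of `Φ` are `q`-Weil numbers of weight `w`. -/
def AllWeil (q : ℕ) (w : ℤ) (Φ : Module.End Ω G) : Prop :=
  ∀ (α : Ω) (x : G), x ≠ 0 → Φ x = α • x → IsWeilNumber q w α

lemma AllWeil.injective {q : ℕ} (hq : 0 < q) {w : ℤ} {Φ : Module.End Ω G} (h : AllWeil q w Φ) :
    Function.Injective Φ := by
  rw [← LinearMap.ker_eq_bot, LinearMap.ker_eq_bot']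
  intro x hx
  by_contra hx0
  exact weil_ne_zero hq (h 0 x hx0 (by rw [hx, zero_smul])) rfl

/-- An unipotent operator `u` with `u Φ = Φ u ^ q` is trivial if `Φ` is pure. -/
lemma fixed_of_unipotent [IsAlgClosed Ω] [FiniteDimensional Ω G] {q : ℕ} (hq : 1 < q) {w : ℤ}
    {Φ u : Module.End Ω G} (hΦ : AllWeil q w Φ) (hu : ∀ (c : Ω) (x : G), x ≠ 0 → u x = c • x →
      c = 1) (hc : ∀ x, u (Φ x) = Φ ((u ^ q) x)) : u = 1 := by
  by_contra hne
  set ν : Module.End Ω G := u - 1 with hν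
  have hνx : ∀ x, ν x = u x - x := fun x => rfl
  have hν0 : ν ≠ 0 := fun h => hne (sub_eq_zero.1 h)
  have hI : LinearMap.range ν ≠ ⊥ := fun h => hν0 (LinearMap.range_eq_bot.1 h)
  have hcomm : ∀ x, u (ν x) = ν (u x) := by
    intro x
    rw [hνx, hνx, map_sub]
  obtain ⟨c, y, ⟨x, rfl⟩, hy0, hy⟩ := exists_eigen u (LinearMap.range ν) hI (by
    rintro _ ⟨x, rfl⟩
    exact ⟨u x, (hcomm x).symm⟩)
  have hc1 := hu c _ hy0 hy
  subst hc1
  rw [one_smul] at hy
  -- `K1 = ker ν`, `K2 = ker ν ^ 2`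
  have hpow : ∀ (x : G), u (ν x) = ν x → ∀ n : ℕ, (u ^ n) x = x + (n : Ω) • ν x := by
    intro x hx n
    induction n with
    | zero => simp
    | succ n ih =>
      rw [pow_succ', Module.End.mul_apply, ih, map_add, map_smul, hx,
        show u x = x + ν x by rw [hνx]; abel]
      push_cast
      rw [add_smul, one_smul]
      abel
  have hfix : ∀ x, u x = x → u (Φ x) = Φ x := by
    intro x hx
    have h1 : ν x = 0 := by rw [hνx, hx, sub_self]
    rw [hc, hpow x (by rw [h1, map_zero]), h1, smul_zero, add_zero]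
  have hstep : ∀ x, u (ν x) = ν x → ν (Φ x) = (q : Ω) • Φ (ν x) := by
    intro x hx
    rw [hνx, hc, hpow x hx, map_add, map_smul, add_sub_cancel_left]
  have hK2 : ∀ x, u (ν x) = ν x → u (ν (Φ x)) = ν (Φ x) := by
    intro x hx
    rw [hstep x hx, map_smul, hfix _ hx]
  have hq0 : (q : Ω) ≠ 0 := by
    have : q ≠ 0 := by omega
    exact_mod_cast this
  let K1 : Submodule Ω G := LinearMap.ker ν
  let K2 : Submodule Ω G := LinearMap.ker (ν * ν)
  have mem1 : ∀ x, x ∈ K1 ↔ u x = x := by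
    intro x
    rw [LinearMap.mem_ker, hνx, sub_eq_zero]
  have mem2 : ∀ x, x ∈ K2 ↔ u (ν x) = ν x := by
    intro x
    rw [LinearMap.mem_ker, Module.End.mul_apply, hνx (ν x), sub_eq_zero]
  let I : Submodule Ω G := K2.map ν
  have hI0 : I ≠ ⊥ := by
    intro h
    apply hy0
    have : ν x ∈ I := ⟨x, (mem2 x).2 hy, rfl⟩
    rw [h] at this
    exact (Submodule.mem_bot Ω).1 this
  obtain ⟨β, z, ⟨t, ht, rfl⟩, hz0, hz⟩ := exists_eigen Φ I hI0 (by
    rintro _ ⟨t, ht, rfl⟩
    have ht' : u (ν t) = ν t := (mem2 t).1 ht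
    refine ⟨(q : Ω)⁻¹ • Φ t, K2.smul_mem _ ((mem2 _).2 (hK2 t ht')), ?_⟩
    rw [map_smul, hstep t ht', smul_smul, inv_mul_cancel₀ hq0, one_smul])
  have ht' : u (ν t) = ν t := (mem2 t).1 ht
  have hβ := hΦ β _ hz0 hz
  -- `q β` is an eigenvalue as well
  have hqβ : ∃ z : G, z ≠ 0 ∧ Φ z = ((q : Ω) * β) • z := by
    let L : Submodule Ω G := K1 ⊔ Submodule.span Ω {t}
    let T : Module.End Ω G := Φ - ((q : Ω) * β) • (1 : Module.End Ω G)
    have hT : ∀ x, T x = Φ x - ((q : Ω) * β) • x := fun x => rfl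
    have hTK : ∀ x ∈ K1, T x ∈ K1 := by
      intro x hx
      rw [hT]
      exact K1.sub_mem ((mem1 _).2 (hfix x ((mem1 x).1 hx))) (K1.smul_mem _ hx)
    have hTt : T t ∈ K1 := by
      show ν (T t) = 0
      rw [hT, map_sub, map_smul, hstep t ht', hz, smul_smul, sub_self]
    have hTL : ∀ x ∈ L, T x ∈ K1 := by
      intro x hx
      obtain ⟨a, ha, b, hb, rfl⟩ := Submodule.mem_sup.1 hx
      obtain ⟨c, rfl⟩ := Submodule.mem_span_singleton.1 hb
      rw [map_add, map_smul]
      exact K1.add_mem (hTK a ha) (K1.smul_mem _ hTt)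
    let T' : L →ₗ[Ω] K1 := T.restrict hTL
    have hlt : finrank Ω K1 < finrank Ω L := by
      apply Submodule.finrank_lt_finrank_of_lt
      refine lt_of_le_of_ne le_sup_left ?_
      intro h
      have : t ∈ K1 := by
        rw [h]
        exact Submodule.mem_sup_right (Submodule.mem_span_singleton_self t)
      exact hz0 (LinearMap.mem_ker.1 this)
    have hker := LinearMap.ker_ne_bot_of_finrank_lt (f := T') hlt
    obtain ⟨z, hz, hz0⟩ := (Submodule.ne_bot_iff _).1 hker
    refine ⟨z, fun h => hz0 (Subtype.ext h), ?_⟩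
    have h1 : T (z : G) = 0 := congrArg Subtype.val (LinearMap.mem_ker.1 hz)
    rw [hT, sub_eq_zero] at h1
    exact h1
  obtain ⟨z, hz0', hz'⟩ := hqβ
  have h1 := hΦ _ z hz0' hz'
  have h2 : IsWeilNumber q (2 * ((1 : ℕ) : ℤ) + w) ((q : Ω) ^ 1 * β) :=
    weil_mul (by omega) (weil_natPow (by omega) 1) hβ
  rw [pow_one] at h2
  have := weil_unique hq h1 h2
  omega

/-- The order of `h` is finite and prime to `q`. -/
lemma finite_order [IsAlgClosed Ω] [FiniteDimensional Ω G] {q : ℕ} (hq : 1 < q) {w : ℤ}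
    {Φ h : Module.End Ω G} (hΦ : AllWeil q w Φ) (hh : Function.Injective h)
    (hc : ∀ x, h (Φ x) = Φ ((h ^ q) x)) : ∃ n : ℕ, 0 < n ∧ h ^ n = 1 ∧ Nat.Coprime n q := by
  classical
  have hΦi := hΦ.injective (by omega)
  have hcomm : ∀ (n : ℕ) (x : G), (h ^ n) (Φ x) = Φ (((h ^ n) ^ q) x) := by
    intro n
    induction n with
    | zero => intro x; simp
    | succ n ih =>
      intro x
      have e : (h ^ (n + 1)) ^ q = h ^ q * (h ^ n) ^ q := by
        rw [← pow_mul, ← pow_mul, ← pow_add]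
        congr 1
        ring
      rw [e, Module.End.mul_apply, ← hc, ← ih, pow_succ', Module.End.mul_apply]
  have hfin := Module.End.finite_hasEigenvalue h
  -- a common exponent
  obtain ⟨n, hn, hn1⟩ : ∃ n : ℕ, 0 < n ∧ ∀ (c : Ω) (x : G), x ≠ 0 → h x = c • x → c ^ n = 1 := by
    have h1 : ∀ c : Ω, ∃ n : ℕ, 0 < n ∧ (h.HasEigenvalue c → c ^ n = 1) := by
      intro c
      by_cases hcc : h.HasEigenvalue c
      · obtain ⟨x, hx⟩ := hcc.exists_hasEigenvector
        obtain ⟨n, hn, hn'⟩ := root_unity hq hΦi hh hc hx.2 hx.apply_eq_smul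
        exact ⟨n, hn, fun _ => hn'⟩
      · exact ⟨1, one_pos, fun h => absurd h hcc⟩
    choose f hf hf' using h1
    refine ⟨∏ c ∈ hfin.toFinset, f c, Finset.prod_pos fun c _ => hf c, fun c x hx hcx => ?_⟩
    have hcc := hasEigen hx hcx
    have hmem : c ∈ hfin.toFinset := by
      rw [Set.Finite.mem_toFinset]
      exact hcc
    obtain ⟨k, hk⟩ := Finset.dvd_prod_of_mem f hmem
    rw [hk, pow_mul, hf' c hcc, one_pow]
  have hone : h ^ n = 1 := by
    apply fixed_of_unipotent hq hΦ ?_ (hcomm n)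
    intro c x hx hcx
    obtain ⟨d, y, hy, hdy, rfl⟩ := eigen_of_pow hn hx hcx
    exact hn1 d y hy hdy
  have hord : IsOfFinOrder h := isOfFinOrder_iff_pow_eq_one.2 ⟨n, hn, hone⟩
  refine ⟨orderOf h, hord.orderOf_pos, pow_orderOf_eq_one h, ?_⟩
  -- the order is prime to `q`
  set g := Nat.gcd (orderOf h) q with hg
  obtain ⟨k, hk⟩ := Nat.gcd_dvd_left (orderOf h) q
  obtain ⟨l, hl⟩ := Nat.gcd_dvd_right (orderOf h) q
  rw [← hg] at hk hl
  have h2 : (h ^ q) ^ k = 1 := by
    rw [← pow_mul, hl, show g * l * k = (g * k) * l by ring, ← hk, pow_mul, pow_orderOf_eq_one,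
      one_pow]
  have h3 : h ^ k = 1 := by
    have hsurj : Function.Surjective Φ := LinearMap.injective_iff_surjective.1 hΦi
    apply LinearMap.ext
    intro x
    obtain ⟨y, rfl⟩ := hsurj x
    rw [hcomm k y, ← pow_mul, mul_comm k q, pow_mul, h2]
    rfl
  have h4 : orderOf h ∣ k := orderOf_dvd_of_pow_eq_one h3
  have h5 : 0 < k := by
    rcases Nat.eq_zero_or_pos k with h0 | h0
    · rw [h0, mul_zero] at hk
      exact absurd hk hord.orderOf_pos.ne'
    · exact h0
  have h6 := Nat.le_of_dvd h5 h4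
  have h7 : 0 < g := by
    rcases Nat.eq_zero_or_pos g with h0 | h0
    · rw [h0, zero_mul] at hk
      exact absurd hk hord.orderOf_pos.ne'
    · exact h0
  have h8 : g = 1 := by
    by_contra hne
    have : 2 ≤ g := by omega
    nlinarith
  exact h8

/-- If `Φ` is pure of weight `w` and `h Φ = Φ h ^ q`, then `Φ h` is pure of weight `w`. -/
lemma allWeil_mul [IsAlgClosed Ω] [FiniteDimensional Ω G] {q : ℕ} (hq : 1 < q) {w : ℤ}
    {Φ h : Module.End Ω G} (hΦ : AllWeil q w Φ) (hh : Function.Injective h)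
    (hc : ∀ x, h (Φ x) = Φ ((h ^ q) x)) : AllWeil q w (Φ * h) := by
  obtain ⟨n, hn, hn1, hcop⟩ := finite_order hq hΦ hh hc
  have hcomm : h * Φ = Φ * h ^ q := LinearMap.ext hc
  have hcomm' : ∀ k : ℕ, h ^ k * Φ = Φ * h ^ (q * k) := by
    intro k
    induction k with
    | zero => simp
    | succ k ih =>
      rw [pow_succ, mul_assoc, hcomm, ← mul_assoc, ih, mul_assoc, ← pow_add, Nat.mul_succ]
  have hpow : ∀ m : ℕ, (Φ * h) ^ m = Φ ^ m * h ^ (∑ i ∈ Finset.range m, q ^ i) := by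
    intro m
    induction m with
    | zero => simp
    | succ m ih =>
      rw [pow_succ, ih, mul_assoc, ← mul_assoc _ Φ h, hcomm', mul_assoc, ← pow_succ, ← mul_assoc,
        ← pow_succ, Finset.sum_range_succ', Finset.mul_sum]
      congr 2
      rw [pow_zero]
      congr 1
      exact Finset.sum_congr rfl fun i _ => by ring
  -- an exponent for which the power of `h` is trivial
  obtain ⟨m, hm, hm1⟩ : ∃ m : ℕ, 0 < m ∧ n ∣ ∑ i ∈ Finset.range m, q ^ i := by
    refine ⟨n.totient * n, Nat.mul_pos (Nat.totient_pos.2 hn) hn, ?_⟩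
    have hmod : q ^ n.totient ≡ 1 [MOD n] := Nat.ModEq.pow_totient hcop.symm
    have hsum : ∀ l : ℕ, ∑ i ∈ Finset.range (n.totient * l), q ^ i ≡
        l * ∑ i ∈ Finset.range n.totient, q ^ i [MOD n] := by
      intro l
      induction l with
      | zero => simp; rfl
      | succ l ih =>
        rw [Nat.mul_succ, Finset.sum_range_add]
        have h1 : ∑ x ∈ Finset.range n.totient, q ^ (n.totient * l + x) ≡
            ∑ x ∈ Finset.range n.totient, q ^ x [MOD n] := by
          have h2 : ∑ x ∈ Finset.range n.totient, q ^ (n.totient * l + x) =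
              (q ^ n.totient) ^ l * ∑ x ∈ Finset.range n.totient, q ^ x := by
            rw [Finset.mul_sum]
            exact Finset.sum_congr rfl fun x _ => by rw [pow_add, pow_mul]
          rw [h2]
          have h3 := (hmod.pow l).mul_right (∑ x ∈ Finset.range n.totient, q ^ x)
          rw [one_pow, one_mul] at h3
          exact h3
        have h4 := ih.add h1
        rw [show (l + 1) * ∑ i ∈ Finset.range n.totient, q ^ i =
          l * ∑ i ∈ Finset.range n.totient, q ^ i + ∑ i ∈ Finset.range n.totient, q ^ i by ring]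
        exact h4
    have h5 := hsum n
    rw [← Nat.modEq_zero_iff_dvd]
    refine h5.trans ?_
    rw [Nat.modEq_zero_iff_dvd]
    exact Dvd.intro _ rfl
  intro α x hx hαx
  obtain ⟨l, hl⟩ := hm1
  have h1 : (Φ * h) ^ m = Φ ^ m := by
    rw [hpow, hl, pow_mul, hn1, one_pow, mul_one]
  have h2 : ((Φ * h) ^ m) x = α ^ m • x := by
    have : ∀ m : ℕ, ((Φ * h) ^ m) x = α ^ m • x := by
      intro m
      induction m with
      | zero => simp
      | succ m ih =>
        rw [pow_succ', Module.End.mul_apply, ih, map_smul, hαx, smul_smul, pow_succ]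
    exact this m
  rw [h1] at h2
  obtain ⟨β, y, hy, hβy, hβ⟩ := eigen_of_pow hm hx h2
  have h3 := (hΦ β y hy hβy).pow m
  rw [hβ] at h3
  exact h3.of_pow hm

end weil

end Pool.Agent.V5helper87.LP
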