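import Pool.Agent.V5helper87.LP.Lin

/-!
# Comparable representations
-/

set_option autoImplicit false

namespace Pool.Agent.V5helper87.LP

open Module Pool.Agent.Y143 Pool.Agent.Y163.MW

universe u v v'

/-- The cohomology group (in some degree) of a variety over a local field: a vector space `V` with
the action `Φ` of a geometric Frobenius element and the monodromy operator `N` (the logarithm of the
action of the inertia group). -/
structure Rep (Ω : Type u) [Field Ω] where
  /-- the cohomology group -/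
  V : Type v
  [addCommGroup : AddCommGroup V]
  [module : Module Ω V]
  /-- a geometric Frobenius element -/
  Φ : Module.End Ω V
  /-- the monodromy operator -/
  N : Module.End Ω V

attribute [instance] Rep.addCommGroup Rep.module

variable {Ω : Type u} [Field Ω]

/-- The representations `R` and `R'` (of the Weil groups of two local fields whose residue fields
have `q` elements) factor through the same representation of an extension of `ℤ` by an abelian group
on which the geometric Frobenius elements `F` act by `F⁻¹ h F = h ^ q`, the Frobenius elements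
agree up to an element `h` of this abelian group, and the monodromy operators are proportional. -/
def Comparable (q : ℕ) (R : Rep.{u, v} Ω) (R' : Rep.{u, v} Ω) : Prop :=
  ∃ (e : R.V ≃ₗ[Ω] R'.V) (h : R'.V ≃ₗ[Ω] R'.V) (c : Ω), c ≠ 0 ∧
    (∀ x, h (R'.N x) = R'.N (h x)) ∧ (∀ x, h (R'.Φ x) = R'.Φ ((h ^ q) x)) ∧
    (∀ x, e (R.Φ x) = R'.Φ (h (e x))) ∧ ∀ x, e (R.N x) = c • R'.N (e x)

/-- mw purity of weight `i`. -/
def Rep.IsPure [CharZero Ω] (R : Rep.{u, v} Ω) (q : ℕ) (i : ℤ) : Prop := IsMWPure q i R.Φ R.N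

section lemmas

variable {V : Type v} [AddCommGroup V] [Module Ω V]

lemma isMonodromyFiltration_smul {N : Module.End Ω V} {M : ℤ → Submodule Ω V}
    (h : IsMonodromyFiltration N M) {c : Ω} (hc : c ≠ 0) :
    IsMonodromyFiltration (c • N) M where
  mono := h.mono
  bot := h.bot
  top := h.top
  map a x hx := (M _).smul_mem _ (h.map a x hx)
  inj a x hx hx' := by
    apply h.inj a x hx
    rw [smul_pow, LinearMap.smul_apply] at hx'
    exact (Submodule.smul_mem_iff _ (pow_ne_zero _ hc)).1 hx'
  surj a y hy := by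
    obtain ⟨x, hx, hx'⟩ := h.surj a y hy
    refine ⟨(c ^ a)⁻¹ • x, (M _).smul_mem _ hx, ?_⟩
    rw [smul_pow, LinearMap.smul_apply, map_smul, smul_smul, mul_inv_cancel₀ (pow_ne_zero _ hc),
      one_smul]
    exact hx'

lemma isMonodromyFiltration_comap {V' : Type v} [AddCommGroup V'] [Module Ω V']
    {N : Module.End Ω V} {N' : Module.End Ω V'} {M : ℤ → Submodule Ω V'}
    (h : IsMonodromyFiltration N' M) (e : V ≃ₗ[Ω] V') (he : ∀ x, e (N x) = N' (e x)) :
    IsMonodromyFiltration N (fun a => (M a).comap e.toLinearMap) := by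
  have hpow : ∀ (k : ℕ) (x : V), e ((N ^ k) x) = (N' ^ k) (e x) := by
    intro k
    induction k with
    | zero => intro x; rfl
    | succ k ih => intro x; rw [pow_succ', Module.End.mul_apply, he, ih, pow_succ' N',
        Module.End.mul_apply]
  refine ⟨fun a b hab x hx => h.mono hab hx, ?_, ?_, ?_, ?_, ?_⟩
  · obtain ⟨a, ha⟩ := h.bot
    refine ⟨a, ?_⟩
    rw [eq_bot_iff]
    intro x hx
    have h1 : e x ∈ M a := hx
    rw [ha, Submodule.mem_bot] at h1
    rw [Submodule.mem_bot]
    exact e.map_eq_zero_iff.1 h1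
  · obtain ⟨a, ha⟩ := h.top
    refine ⟨a, ?_⟩
    rw [eq_top_iff]
    intro x _
    show e x ∈ M a
    rw [ha]
    trivial
  · intro a x hx
    show e (N x) ∈ M (a - 2)
    rw [he]
    exact h.map a _ hx
  · intro a x hx hx'
    apply h.inj a (e x) hx
    rw [← hpow]
    exact hx'
  · intro a y hy
    obtain ⟨x, hx, hx'⟩ := h.surj a (e y) hy
    refine ⟨e.symm x, ?_, ?_⟩
    · show e (e.symm x) ∈ M a
      rwa [e.apply_symm_apply]
    · show e (y - (N ^ a) (e.symm x)) ∈ M (-a - 1)
      rw [map_sub, hpow, e.apply_symm_apply]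
      exact hx'

/-- Operators which commute with `N` preserve the monodromy filtration. -/
lemma stable_of_commute {N : Module.End Ω V} {M : ℤ → Submodule Ω V}
    (h : IsMonodromyFiltration N M) (A : V →ₗ[Ω] V) (hA : ∀ x, A (N x) = N (A x)) (a : ℤ) {x : V}
    (hx : x ∈ M a) : A x ∈ M a := by
  refine h.on.functorial h.on A (fun _ _ => trivial) one_ne_zero (fun x _ => ?_) a hx
  rw [one_smul, hA]

end lemmas

section graded

variable {V : Type v} [AddCommGroup V] [Module Ω V]

/-- The subquotient `B / A`. -/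
abbrev SubQ (B A : Submodule Ω V) : Type v := B ⧸ A.comap B.subtype

/-- The operator induced on a subquotient. -/
noncomputable def indQ (B A : Submodule Ω V) (T : Module.End Ω V) (hB : ∀ x ∈ B, T x ∈ B)
    (hA : ∀ x ∈ A, T x ∈ A) : Module.End Ω (SubQ B A) :=
  Submodule.mapQ _ _ (T.restrict hB) (fun x hx => hA x hx)

/-- The class of an element. -/
noncomputable def clQ (B A : Submodule Ω V) (x : B) : SubQ B A := Submodule.Quotient.mk x

lemma clQ_eq_zero (B A : Submodule Ω V) (x : B) : clQ B A x = 0 ↔ (x : V) ∈ A := by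
  unfold clQ
  rw [Submodule.Quotient.mk_eq_zero]
  rfl

lemma indQ_clQ (B A : Submodule Ω V) (T : Module.End Ω V) (hB : ∀ x ∈ B, T x ∈ B)
    (hA : ∀ x ∈ A, T x ∈ A) (x : B) : indQ B A T hB hA (clQ B A x) = clQ B A ⟨T x, hB x x.2⟩ := rfl

lemma clQ_surj (B A : Submodule Ω V) (z : SubQ B A) : ∃ x : B, clQ B A x = z :=
  Submodule.Quotient.mk_surjective _ z

lemma clQ_eigen (B A : Submodule Ω V) (T : Module.End Ω V) (hB : ∀ x ∈ B, T x ∈ B)
    (hA : ∀ x ∈ A, T x ∈ A) (α : Ω) (x : B) :
    indQ B A T hB hA (clQ B A x) = α • clQ B A x ↔ T x - α • (x : V) ∈ A := by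
  rw [indQ_clQ, ← sub_eq_zero]
  have : clQ B A ⟨T x, hB x x.2⟩ - α • clQ B A x = clQ B A (⟨T x, hB x x.2⟩ - α • x) := rfl
  rw [this, clQ_eq_zero]
  rfl

end graded

/-- mw purity is preserved by comparison. -/
theorem Comparable.isPure [CharZero Ω] [IsAlgClosed Ω] {q : ℕ} (hq : 1 < q) {R R' : Rep.{u, v} Ω}
    (hR : Comparable q R R') [FiniteDimensional Ω R'.V] {i : ℤ} (h' : R'.IsPure q i) :
    R.IsPure q i := by
  obtain ⟨e, h, c, hc, h1, h2, h3, h4⟩ := hR
  obtain ⟨M, hM, hMΦ, hMw⟩ := h'
  have hst : ∀ a x, x ∈ M a → h x ∈ M a := fun a x hx => stable_of_commute hM h.toLinearMap h1 a hx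
  have h1' : ∀ x, h.symm (R'.N x) = R'.N (h.symm x) := by
    intro x
    rw [LinearEquiv.symm_apply_eq, h1, h.apply_symm_apply]
  have hst' : ∀ a x, x ∈ M a → h.symm x ∈ M a := fun a x hx =>
    stable_of_commute hM h.symm.toLinearMap h1' a hx
  refine ⟨fun a => (M a).comap e.toLinearMap,
    isMonodromyFiltration_comap (isMonodromyFiltration_smul hM hc) e (fun x => ?_), ?_, ?_⟩
  · rw [h4]
    rfl
  · intro a x hx
    show e (R.Φ x) ∈ M a
    rw [h3]
    exact hMΦ a _ (hst a _ hx)
  · intro a α x hx hx' hxα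
    have hy : e x ∈ M a := hx
    have hy' : e x ∉ M (a - 1) := hx'
    have hyα : R'.Φ (h (e x)) - α • e x ∈ M (a - 1) := by
      have h5 : e (R.Φ x - α • x) ∈ M (a - 1) := hxα
      rw [map_sub, map_smul, h3] at h5
      exact h5
    set B := M a with hB
    set A := M (a - 1) with hA
    let φ := indQ B A R'.Φ (hMΦ a) (hMΦ (a - 1))
    let η := indQ B A h.toLinearMap (hst a) (hst (a - 1))
    have hφ : AllWeil q (a + i) φ := by
      intro β z hz hzβ
      obtain ⟨y, rfl⟩ := clQ_surj B A z
      have h5 : (y : R'.V) ∉ A := fun h => hz ((clQ_eq_zero B A y).2 h)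
      exact hMw a β y y.2 h5 ((clQ_eigen B A _ _ _ β y).1 hzβ)
    have hηpow : ∀ (n : ℕ) (y : B), ∃ hn : (h ^ n) (y : R'.V) ∈ B,
        (η ^ n) (clQ B A y) = clQ B A ⟨(h ^ n) (y : R'.V), hn⟩ := by
      intro n
      induction n with
      | zero => intro y; exact ⟨y.2, rfl⟩
      | succ n ih =>
        intro y
        obtain ⟨hn, hn'⟩ := ih y
        refine ⟨?_, ?_⟩
        · rw [pow_succ']
          exact hst a _ hn
        · rw [pow_succ', Module.End.mul_apply, hn']
          show indQ B A h.toLinearMap _ _ _ = _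
          rw [indQ_clQ]
          congr 1
          apply Subtype.ext
          show h ((h ^ n) (y : R'.V)) = (h ^ (n + 1)) (y : R'.V)
          rw [pow_succ']
          rfl
    have hηi : Function.Injective η := by
      rw [← LinearMap.ker_eq_bot, LinearMap.ker_eq_bot']
      intro z hz
      obtain ⟨y, rfl⟩ := clQ_surj B A z
      have h5 : clQ B A ⟨h (y : R'.V), hst a y y.2⟩ = 0 := hz
      rw [clQ_eq_zero] at h5
      have h6 := hst' (a - 1) _ h5
      rw [clQ_eq_zero]
      simpa using h6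
    have hc' : ∀ z, η (φ z) = φ ((η ^ q) z) := by
      intro z
      obtain ⟨y, rfl⟩ := clQ_surj B A z
      obtain ⟨hn, hn'⟩ := hηpow q y
      rw [hn']
      show clQ B A ⟨h (R'.Φ y), _⟩ = clQ B A ⟨R'.Φ ((h ^ q) (y : R'.V)), _⟩
      congr 1
      exact Subtype.ext (h2 _)
    have key := allWeil_mul hq hφ hηi hc'
    apply key α (clQ B A ⟨e x, hy⟩)
    · intro h0
      exact hy' ((clQ_eq_zero B A _).1 h0)
    · rw [Module.End.mul_apply]
      show clQ B A ⟨R'.Φ (h (e x)), _⟩ = α • clQ B A ⟨e x, hy⟩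
      rw [← sub_eq_zero]
      exact (clQ_eq_zero B A (⟨R'.Φ (h (e x)), _⟩ - α • ⟨e x, hy⟩)).2 hyα

end Pool.Agent.V5helper87.LP
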