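import Pool.Agent.V5helper87.LP.Arc

/-!
# Families over the complement of a relative divisor with normal crossings
-/

set_option autoImplicit false

open CategoryTheory CategoryTheory.Limits AlgebraicGeometry IsLocalRing

universe u v

namespace Pool.Agent.V5helper87.LP

section

/-- A morphism from the spectrum of a local ring factors through an affine open neighbourhood of the
image of the closed point. -/
lemma exists_factor {P : Scheme.{0}} {W : P.Opens} (hW : IsAffineOpen W) {O : Type} [CommRing O]
    [IsLocalRing O] (t : Spec (.of O) ⟶ P) (h : t (closedPoint O) ∈ W) :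
    ∃ a : Γ(P, W) ⟶ .of O, Spec.map a ≫ hW.fromSpec = t := by
  have hle : (⊤ : (Spec (.of O)).Opens) ≤ t ⁻¹ᵁ W := by
    intro z _
    have h1 : z ⤳ closedPoint O := specializes_closedPoint _
    exact (h1.map t.continuous).mem_open W.2 h
  refine ⟨t.appLE W ⊤ hle ≫ (Scheme.ΓSpecIso (.of O)).hom, ?_⟩
  rw [Spec.map_comp, Category.assoc, IsAffineOpen.SpecMap_appLE_fromSpec t hW
    (isAffineOpen_top _) hle, IsAffineOpen.fromSpec_top, Scheme.isoSpec_Spec_inv,
    ← Category.assoc, ← Spec.map_comp, Iso.inv_hom_id, Spec.map_id, Category.id_comp]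

lemma genPt_loc {A : Type} [CommRing A] (f : A) (B : Trait) (t : A →+* B.O) (ht : t f ≠ 0) :
    genPt f B t ht ≫ Spec.map (CommRingCat.ofHom (algebraMap A (Localization.Away f))) =
      B.gen ≫ Spec.map (CommRingCat.ofHom t) := by
  unfold genPt Trait.gen
  rw [← Spec.map_comp, ← Spec.map_comp, ← CommRingCat.ofHom_comp, ← CommRingCat.ofHom_comp]
  congr 2
  exact IsLocalization.Away.lift_comp (S := Localization.Away f) f _

/-- The open immersion of the complement of the divisor. -/
lemma exists_chartMap {P U : Scheme.{0}} (j : U ⟶ P) [IsOpenImmersion j] {W : P.Opens}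
    (hW : IsAffineOpen W) (f : Γ(P, W)) (h : j.opensRange ⊓ W = P.basicOpen f) :
    ∃ s : Spec (.of (Localization.Away f)) ⟶ U,
      s ≫ j = Spec.map (CommRingCat.ofHom (algebraMap Γ(P, W) (Localization.Away f))) ≫
        hW.fromSpec := by
  have hr : Set.range (Spec.map (CommRingCat.ofHom (algebraMap Γ(P, W) (Localization.Away f))) ≫
      hW.fromSpec) ⊆ Set.range j := by
    rintro _ ⟨z, rfl⟩
    rw [Scheme.Hom.comp_apply]
    have h1 : Spec.map (CommRingCat.ofHom (algebraMap Γ(P, W) (Localization.Away f))) z ∈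
        PrimeSpectrum.basicOpen f := by
      have h2 := PrimeSpectrum.localization_away_comap_range (Localization.Away f) f
      have h3 : PrimeSpectrum.comap (algebraMap Γ(P, W) (Localization.Away f)) z ∈
          (PrimeSpectrum.basicOpen f : Set (PrimeSpectrum Γ(P, W))) := by
        rw [← h2]
        exact ⟨z, rfl⟩
      exact h3
    rw [← hW.fromSpec_preimage_basicOpen, ← h] at h1
    exact h1.1
  exact ⟨IsOpenImmersion.lift j _ hr, IsOpenImmersion.lift_fac _ _ _⟩

end

variable {Ω : Type u} [Field Ω] [CharZero Ω] [IsAlgClosed Ω] {T : CohData.{u, v} Ω} {ℓ : ℕ}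

lemma Trait.one_lt_q (B : Trait) : 1 < B.q := Finite.one_lt_card

lemma psTrait_q (k : Type) [Field k] [Finite k] : (psTrait k).q = Nat.card k :=
  Nat.card_congr (PowerSeries.residueFieldOfPowerSeries (k := k)).toEquiv

lemma psTrait_p (k : Type) [Field k] [Finite k] : (psTrait k).p = ringChar k := by
  have e := PowerSeries.residueFieldOfPowerSeries (k := k)
  have h : CharP k (psTrait k).p := by
    have h1 : CharP (ResidueField (PowerSeries k)) (ringChar (ResidueField (PowerSeries k))) :=
      inferInstance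
    exact charP_of_injective_ringHom (f := e.toRingHom) e.injective _
  exact (ringChar.eq k (psTrait k).p).symm ▸ rfl

lemma psTrait_not_charZero (k : Type) [Field k] [Finite k] : ¬ CharZero (psTrait k).O := by
  intro h
  have h1 : CharZero (PowerSeries k) := h
  have h2 : CharZero k := by
    refine ⟨fun a b hab => ?_⟩
    have h3 : ((a : ℕ) : PowerSeries k) = ((b : ℕ) : PowerSeries k) := by
      rw [← map_natCast (PowerSeries.C (R := k)), ← map_natCast (PowerSeries.C (R := k)), hab]
    exact_mod_cast h3
  exact not_finite k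

/-- **Transport from equal characteristic.** Let `R` be a Dedekind domain of characteristic zero, `P`
an `R`-scheme and `j : U ⟶ P` the complement of a divisor with strict normal crossings relative to
`R` in `P` (smooth over `R`). Let `g : 𝒴 ⟶ Y` be a smooth proper family and `ψ : U ⟶ Y`. Then the
weight-monodromy conjecture is true for all fibres of the family (pulled back to `U`) over points
with values in the fraction field `K` of a henselian discrete valuation ring `O` with finite residue
field, if these points extend to points of `P` with values in `O`. -/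
theorem transport (hT : IsEtaleCohomology T ℓ) {R : Type} [CommRing R] [IsDedekindDomain R]
    [CharZero R] {P U : Scheme.{0}} {π : P ⟶ Spec (.of R)} {j : U ⟶ P} [IsOpenImmersion j]
    (hj : IsSNC π j) {𝒴 Y : Scheme.{0}} {g : 𝒴 ⟶ Y} (hg : SmoothProper g) (ψ : U ⟶ Y) (B : Trait)
    (hB : B.p ≠ ℓ) (t : Spec (.of B.O) ⟶ P) (y : Spec (.of B.K) ⟶ U) (hy : y ≫ j = B.gen ≫ t)
    {X : Scheme.{0}} (str : X ⟶ Spec (.of B.K)) (hX : IsFibre g (y ≫ ψ) str) (m : ℕ) :
    (T.H B str m).IsPure B.q m := by
  obtain ⟨W, c, hW, hs, -, hUW⟩ := hj (t (closedPoint B.O))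
  obtain ⟨a, ha⟩ := exists_factor hW t hs
  obtain ⟨s, hs'⟩ := exists_chartMap j hW c.eqn hUW
  have ht : a.hom c.eqn ≠ 0 := by
    intro h0
    let z : Spec (.of B.K) := (⊥ : PrimeSpectrum B.K)
    have h1 : (B.gen ≫ t) z ∈ j.opensRange ⊓ W := by
      refine ⟨?_, ?_⟩
      · rw [← hy]
        exact ⟨y z, rfl⟩
      · rw [← ha, ← Category.assoc, Scheme.Hom.comp_apply]
        have h2 : Set.range hW.fromSpec = W := hW.range_fromSpec
        show hW.fromSpec _ ∈ (W : Set P)
        rw [← h2]
        exact ⟨_, rfl⟩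
    rw [hUW, ← ha, ← Category.assoc, Scheme.Hom.comp_apply] at h1
    have h2 : (B.gen ≫ Spec.map a) z ∈ hW.fromSpec ⁻¹ᵁ P.basicOpen c.eqn := h1
    rw [hW.fromSpec_preimage_basicOpen] at h2
    apply h2
    show (algebraMap B.O B.K) (a.hom c.eqn) ∈ z.asIdeal
    rw [h0, map_zero]
    exact z.asIdeal.zero_mem
  let B' : Trait := psTrait (ResidueField B.O)
  obtain ⟨t', ht', hpt, hmult⟩ : ∃ (t' : Γ(P, W) →+* B'.O), t' c.eqn ≠ 0 ∧
    SamePoint B B' a.hom t' ∧ SameMult c B B' a.hom t' := exists_arc c B a.hom ht
  have hyψ : genPt c.eqn B a.hom ht ≫ s = y := by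
    rw [← cancel_mono j, Category.assoc, hs', ← Category.assoc, genPt_loc, hy, Category.assoc, ← ha]
    rfl
  have hq : B'.q = B.q := psTrait_q _
  have hp : B'.p = B.p := psTrait_p _
  -- the family over the arc in equal characteristic
  have h1 : Smooth g := hg.smooth
  have h2 : IsProper g := hg.proper
  let y' := genPt c.eqn B' t' ht' ≫ s ≫ ψ
  have hX' : IsFibre g y' (pullback.snd g y') := ⟨pullback.fst g y', IsPullback.of_hasPullback _ _⟩
  have hsp : SmoothProper (pullback.snd g y') := ⟨inferInstance, inferInstance⟩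
  have hpure := hT.deligne B' (pullback.snd g y') (by rw [hp]; exact hB)
    (psTrait_not_charZero _) hsp m
  have hfin := hT.finite B' (pullback.snd g y') (by rw [hp]; exact hB) hsp m
  have hcomp := hT.tame R Γ(P, W) c g hg (s ≫ ψ) B B' a.hom t' ht ht' hB hpt hmult str
    (pullback.snd g y') (by rw [← Category.assoc, hyψ]; exact hX) hX' m
  rw [hq] at hcomp hpure
  exact hcomp.isPure B.one_lt_q hpure

end Pool.Agent.V5helper87.LP
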