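import Pool.Agent.V5helper87.LP.Transport

/-!
# Bounded families: almost all residue characteristics
-/

set_option autoImplicit false

open CategoryTheory CategoryTheory.Limits AlgebraicGeometry IsLocalRing

universe u v

namespace Pool.Agent.V5helper87.LP

/-- **Resolution of singularities** (Hironaka, together with a spreading out argument). A finitely
generated `ℤ`-algebra `D` which is a domain of characteristic zero has a localization `D[1/h]` whose
spectrum is the complement of a divisor with strict normal crossings relative to `ℤ[1/M]` in a smooth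
and proper scheme `P` over `ℤ[1/M]`, for some `M ≥ 1`. -/
def Hironaka : Prop :=
  ∀ (D : Type) [CommRing D] [IsDomain D] [CharZero D], (Int.castRingHom D).FiniteType →
    ∃ (M : ℕ) (h : D) (P : Scheme.{0}) (π : P ⟶ Spec (.of (Localization.Away (M : ℤ))))
      (j : Spec (.of (Localization.Away h)) ⟶ P) (_ : IsOpenImmersion j),
      M ≠ 0 ∧ h ≠ 0 ∧ IsProper π ∧ IsSNC π j

section base

lemma powers_le (M : ℕ) [NeZero M] : Submonoid.powers (M : ℤ) ≤ nonZeroDivisors ℤ := by
  apply powers_le_nonZeroDivisors_of_noZeroDivisors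
  exact_mod_cast NeZero.ne M

instance away_dedekind (M : ℕ) [NeZero M] : IsDedekindDomain (Localization.Away (M : ℤ)) := by
  have h : IsDomain (Localization.Away (M : ℤ)) := IsLocalization.isDomain_localization (powers_le M)
  exact IsLocalization.isDedekindDomain ℤ (powers_le M) _

instance away_charZero (M : ℕ) [NeZero M] : CharZero (Localization.Away (M : ℤ)) := by
  have h : Function.Injective (algebraMap ℤ (Localization.Away (M : ℤ))) :=
    IsLocalization.injective (M := Submonoid.powers (M : ℤ)) _ (powers_le M)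
  exact charZero_of_injective_algebraMap h

/-- An integer smaller than the residue characteristic is invertible. -/
lemma isUnit_of_lt (B : Trait) (M : ℕ) (hM : M ≠ 0) (hlt : M < B.p) : IsUnit (M : B.O) := by
  by_contra h
  have h1 : residue B.O (M : B.O) = 0 := (residue_eq_zero_iff _).2 ((mem_maximalIdeal _).2 h)
  rw [map_natCast] at h1
  have h2 : B.p ∣ M := (ringChar.spec (ResidueField B.O) M).1 h1
  exact absurd (Nat.le_of_dvd (Nat.pos_of_ne_zero hM) h2) (by omega)

/-- The structure morphism to the spectrum of `ℤ[1/M]`. -/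
noncomputable def toAway (B : Trait) (M : ℕ) (hM : M ≠ 0) (hlt : M < B.p) :
    Spec (.of B.O) ⟶ Spec (.of (Localization.Away (M : ℤ))) :=
  Spec.map (CommRingCat.ofHom (IsLocalization.Away.lift (S := Localization.Away (M : ℤ)) (M : ℤ)
    (g := Int.castRingHom B.O) (by simpa using isUnit_of_lt B M hM hlt)))

lemma hom_away_unique {X : Scheme.{0}} {M : ℕ} (a b : X ⟶ Spec (.of (Localization.Away (M : ℤ)))) :
    a = b := by
  have h1 : Mono (Spec.map (CommRingCat.ofHom (algebraMap ℤ (Localization.Away (M : ℤ))))) :=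
    inferInstance
  rw [← cancel_mono (Spec.map (CommRingCat.ofHom (algebraMap ℤ (Localization.Away (M : ℤ)))))]
  exact specZIsTerminal.hom_ext _ _

/-- The valuative criterion. -/
lemma exists_arc_of_proper {P : Scheme.{0}} {M : ℕ} {π : P ⟶ Spec (.of (Localization.Away (M : ℤ)))}
    (hπ : IsProper π) (B : Trait) (hM : M ≠ 0) (hlt : M < B.p) (y : Spec (.of B.K) ⟶ P) :
    ∃ t : Spec (.of B.O) ⟶ P, y = B.gen ≫ t := by
  have h1 : ValuativeCriterion.Existence π := by
    rw [IsProper.eq_valuativeCriterion] at hπ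
    exact hπ.1.1.1.existence
  let Q : ValuativeCommSq π :=
    { R := B.O
      K := B.K
      i₁ := y
      i₂ := toAway B M hM hlt
      commSq := ⟨hom_away_unique _ _⟩ }
  obtain ⟨⟨l⟩⟩ := h1 Q
  exact ⟨l.l, l.fac_left.symm⟩

end base

/-- The weight-monodromy conjecture is true for all fibres of the family `g` over the points of the
closed subscheme of `Spec A` defined by the ideal `I`, with values in local fields of characteristic
zero and large residue characteristic. -/
def Uniform {A : Type} [CommRing A] {𝒴 Y : Scheme.{0}} (g : 𝒴 ⟶ Y) (ψ : Spec (.of A) ⟶ Y)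
    (I : Ideal A) : Prop :=
  ∃ p₀ : ℕ, ∀ (Ω : Type u) [Field Ω] [CharZero Ω] [IsAlgClosed Ω] (T : CohData.{u, v} Ω) (ℓ : ℕ),
    IsEtaleCohomology T ℓ → ∀ B : Trait, CharZero B.O → p₀ < B.p → B.p ≠ ℓ →
    ∀ φ : A →+* B.K, I ≤ RingHom.ker φ → ∀ {X : Scheme.{0}} (str : X ⟶ Spec (.of B.K)),
      IsFibre g (Spec.map (CommRingCat.ofHom φ) ≫ ψ) str → ∀ m : ℕ, (T.H B str m).IsPure B.q m

lemma charZero_K (B : Trait) (h : CharZero B.O) : CharZero B.K :=
  charZero_of_injective_algebraMap (IsFractionRing.injective B.O B.K)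

/-- The prime case. -/
lemma uniform_prime (hH : Hironaka) {A : Type} [CommRing A] (hA : (Int.castRingHom A).FiniteType)
    {𝒴 Y : Scheme.{0}} {g : 𝒴 ⟶ Y} (hg : SmoothProper g) (ψ : Spec (.of A) ⟶ Y) (I : Ideal A)
    [I.IsPrime] (ih : ∀ J > I, Uniform.{u, v} g ψ J) : Uniform.{u, v} g ψ I := by
  by_cases hD : CharZero (A ⧸ I)
  · have hft : (Int.castRingHom (A ⧸ I)).FiniteType := by
      have h0 : (Int.castRingHom (A ⧸ I)) = (Ideal.Quotient.mk I).comp (Int.castRingHom A) :=
        RingHom.ext_int _ _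
      rw [h0]
      exact (RingHom.FiniteType.of_surjective _ Ideal.Quotient.mk_surjective).comp hA
    obtain ⟨M, h, P, π, j, hj, hM, hh, hπ, hsnc⟩ := hH (A ⧸ I) hft
    obtain ⟨a, rfl⟩ := Ideal.Quotient.mk_surjective h
    have ha : a ∉ I := fun ha => hh (Ideal.Quotient.eq_zero_iff_mem.2 ha)
    have hlt : I < I ⊔ Ideal.span {a} := by
      refine lt_of_le_of_ne le_sup_left fun he => ha ?_
      rw [he]
      exact Ideal.mem_sup_right (Ideal.mem_span_singleton_self a)
    obtain ⟨p₁, hp₁⟩ := ih _ hlt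
    refine ⟨max p₁ M, fun Ω _ _ _ T ℓ hT B hB hp hℓ φ hφ {X} str hX m => ?_⟩
    by_cases hφa : φ a = 0
    · refine hp₁ Ω T ℓ hT B hB (lt_of_le_of_lt (le_max_left _ _) hp) hℓ φ ?_ str hX m
      rw [sup_le_iff]
      refine ⟨hφ, ?_⟩
      rw [Ideal.span_singleton_le_iff_mem]
      exact hφa
    · have hMp : M < B.p := lt_of_le_of_lt (le_max_right _ _) hp
      have hne : NeZero M := ⟨hM⟩
      let φ' : A ⧸ I →+* B.K := Ideal.Quotient.lift I φ (fun x hx => hφ hx)
      let φh : Localization.Away (Ideal.Quotient.mk I a) →+* B.K :=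
        IsLocalization.Away.lift (S := Localization.Away (Ideal.Quotient.mk I a))
          (Ideal.Quotient.mk I a) (g := φ') (by
            rw [Ideal.Quotient.lift_mk]
            exact isUnit_iff_ne_zero.2 hφa)
      have hφh : (φh.comp (algebraMap (A ⧸ I) _)).comp (Ideal.Quotient.mk I) = φ := by
        rw [IsLocalization.Away.lift_comp]
        ext x
        simp [φ']
      let y : Spec (.of B.K) ⟶ Spec (.of (Localization.Away (Ideal.Quotient.mk I a))) :=
        Spec.map (CommRingCat.ofHom φh)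
      obtain ⟨t, ht⟩ := exists_arc_of_proper hπ B hM hMp (y ≫ j)
      let s : Spec (.of (Localization.Away (Ideal.Quotient.mk I a))) ⟶ Spec (.of A) :=
        Spec.map (CommRingCat.ofHom ((algebraMap (A ⧸ I)
          (Localization.Away (Ideal.Quotient.mk I a))).comp (Ideal.Quotient.mk I)))
      have hys : y ≫ s = Spec.map (CommRingCat.ofHom φ) := by
        show Spec.map _ ≫ Spec.map _ = _
        rw [← Spec.map_comp, ← CommRingCat.ofHom_comp]
        congr 2
      refine transport hT hsnc hg (s ≫ ψ) B hℓ t y ht str ?_ m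
      rw [← Category.assoc, hys]
      exact hX
  · refine ⟨0, fun Ω _ _ _ T ℓ hT B hB hp hℓ φ hφ {X} str hX m => ?_⟩
    exfalso
    have h1 : ringChar (A ⧸ I) ≠ 0 := fun h0 => hD ((CharP.ringChar_zero_iff_CharZero _).1 h0)
    have h2 : ((ringChar (A ⧸ I) : ℕ) : A ⧸ I) = 0 := ringChar.Nat.cast_ringChar
    have h3 : ((ringChar (A ⧸ I) : ℕ) : A) ∈ I := by
      rw [← Ideal.Quotient.eq_zero_iff_mem, map_natCast]
      exact h2
    have h4 : φ ((ringChar (A ⧸ I) : ℕ) : A) = 0 := hφ h3
    rw [map_natCast] at h4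
    have h5 := charZero_K B hB
    exact h1 (by exact_mod_cast h4)

theorem uniform_all (hH : Hironaka) {A : Type} [CommRing A] (hA : (Int.castRingHom A).FiniteType)
    {𝒴 Y : Scheme.{0}} {g : 𝒴 ⟶ Y} (hg : SmoothProper g) (ψ : Spec (.of A) ⟶ Y) (I : Ideal A) :
    Uniform.{u, v} g ψ I := by
  have hft : Algebra.FiniteType ℤ A := by
    rw [← RingHom.finiteType_algebraMap, show algebraMap ℤ A = Int.castRingHom A from
      RingHom.ext_int _ _]
    exact hA
  have hN : IsNoetherianRing A := Algebra.FiniteType.isNoetherianRing ℤ A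
  refine IsNoetherian.induction (P := fun I : Ideal A => Uniform.{u, v} g ψ I) ?_ I
  intro (I : Ideal A) ih
  by_cases hI : I.IsPrime
  · exact uniform_prime hH hA hg ψ I ih
  · by_cases htop : I = ⊤
    · refine ⟨0, fun Ω _ _ _ T ℓ hT B hB hp hℓ φ hφ {X} str hX m => ?_⟩
      exfalso
      have h1 : (1 : A) ∈ I := htop ▸ Submodule.mem_top
      have h2 : φ 1 = 0 := hφ h1
      rw [map_one] at h2
      exact one_ne_zero h2
    · obtain ⟨a, ha, b, hb, hab⟩ : ∃ a, a ∉ I ∧ ∃ b, b ∉ I ∧ a * b ∈ I := by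
        by_contra hcon
        push Not at hcon
        apply hI
        refine ⟨htop, fun {a b} hab => ?_⟩
        by_contra hn
        push Not at hn
        exact hcon a hn.1 b hn.2 hab
      have hlt : ∀ a, a ∉ I → I < I ⊔ Ideal.span {a} := by
        intro a ha
        refine lt_of_le_of_ne le_sup_left fun he => ha ?_
        rw [he]
        exact Ideal.mem_sup_right (Ideal.mem_span_singleton_self a)
      obtain ⟨p₁, hp₁⟩ := ih _ (hlt a ha)
      obtain ⟨p₂, hp₂⟩ := ih _ (hlt b hb)
      refine ⟨max p₁ p₂, fun Ω _ _ _ T ℓ hT B hB hp hℓ φ hφ {X} str hX m => ?_⟩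
      have h1 : φ a * φ b = 0 := by
        rw [← map_mul]
        exact hφ hab
      rcases mul_eq_zero.1 h1 with h2 | h2
      · refine hp₁ Ω T ℓ hT B hB (lt_of_le_of_lt (le_max_left _ _) hp) hℓ φ ?_ str hX m
        rw [sup_le_iff, Ideal.span_singleton_le_iff_mem]
        exact ⟨hφ, h2⟩
      · refine hp₂ Ω T ℓ hT B hB (lt_of_le_of_lt (le_max_right _ _) hp) hℓ φ ?_ str hX m
        rw [sup_le_iff, Ideal.span_singleton_le_iff_mem]
        exact ⟨hφ, h2⟩

/-- **Bounded families.** Let `g` be a smooth proper family over a scheme `Y` of finite type over `ℤ`.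
There is a number `p₀` such that the weight-monodromy conjecture is true for all the fibres of `g`
over the points of `Y` with values in a local field of characteristic zero whose residue
characteristic is larger than `p₀`. -/
theorem bounded (hH : Hironaka) {𝒴 Y : Scheme.{0}} (s : Y ⟶ Spec (.of ℤ)) [LocallyOfFiniteType s]
    [QuasiCompact s] (g : 𝒴 ⟶ Y) (hg : SmoothProper g) :
    ∃ p₀ : ℕ, ∀ (Ω : Type u) [Field Ω] [CharZero Ω] [IsAlgClosed Ω] (T : CohData.{u, v} Ω) (ℓ : ℕ),
      IsEtaleCohomology T ℓ → ∀ B : Trait, CharZero B.O → p₀ < B.p → B.p ≠ ℓ →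
      ∀ (y : Spec (.of B.K) ⟶ Y) {X : Scheme.{0}} (str : X ⟶ Spec (.of B.K)),
        IsFibre g y str → ∀ m : ℕ, (T.H B str m).IsPure B.q m := by
  classical
  have hqc : CompactSpace Y := QuasiCompact.compactSpace_of_compactSpace s
  have h1 : ∀ U : Y.affineOpens, ∃ p₀ : ℕ, ∀ (Ω : Type u) [Field Ω] [CharZero Ω] [IsAlgClosed Ω]
      (T : CohData.{u, v} Ω) (ℓ : ℕ),
      IsEtaleCohomology T ℓ → ∀ B : Trait, CharZero B.O → p₀ < B.p → B.p ≠ ℓ →
      ∀ (y : Spec (.of B.K) ⟶ Y) {X : Scheme.{0}} (str : X ⟶ Spec (.of B.K)),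
        y (closedPoint B.K) ∈ U.1 →
        IsFibre g y str → ∀ m : ℕ, (T.H B str m).IsPure B.q m := by
    intro U
    have hft : (s.appLE ⊤ U.1 (by simp)).hom.FiniteType :=
      s.finiteType_appLE (isAffineOpen_top _) U.2 _
    have hA : (Int.castRingHom Γ(Y, U.1)).FiniteType := by
      have h2 : ((Scheme.ΓSpecIso (.of ℤ)).inv ≫ s.appLE ⊤ U.1 (by simp)).hom.FiniteType := by
        rw [CommRingCat.hom_comp]
        apply RingHom.FiniteType.comp hft
        exact RingHom.FiniteType.of_surjective _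
          (ConcreteCategory.bijective_of_isIso (Scheme.ΓSpecIso (.of ℤ)).inv).2
      convert h2
      exact RingHom.ext_int _ _
    obtain ⟨p₀, hp₀⟩ := uniform_all.{u, v} hH hA hg U.2.fromSpec ⊥
    refine ⟨p₀, fun Ω _ _ _ T ℓ hT B hB hp hℓ y {X} str hy hX m => ?_⟩
    obtain ⟨a, ha⟩ := exists_factor U.2 y hy
    refine hp₀ Ω T ℓ hT B hB hp hℓ a.hom bot_le str ?_ m
    have h3 : Spec.map (CommRingCat.ofHom a.hom) ≫ U.2.fromSpec = y := ha
    rw [h3]
    exact hX
  choose f hf using h1
  have hcov : ∀ x : Y, ∃ U : Y.affineOpens, x ∈ U.1 := by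
    intro x
    obtain ⟨_, ⟨U, hU, rfl⟩, hx, -⟩ :=
      Y.isBasis_affineOpens.exists_subset_of_mem_open (Set.mem_univ x) isOpen_univ
    exact ⟨⟨U, hU⟩, hx⟩
  choose c hc using hcov
  obtain ⟨t, ht⟩ := CompactSpace.elim_nhds_subcover (fun x : Y => ((c x).1 : Set Y))
    (fun x => (c x).1.2.mem_nhds (hc x))
  refine ⟨t.sup fun x => f (c x), fun Ω _ _ _ T ℓ hT B hB hp hℓ y {X} str hX m => ?_⟩
  have h2 : y (closedPoint B.K) ∈ ⋃ x ∈ t, ((c x).1 : Set Y) := by
    rw [ht]
    trivial
  simp only [Set.mem_iUnion] at h2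
  obtain ⟨x, hx, hyx⟩ := h2
  exact hf (c x) Ω T ℓ hT B hB
    (lt_of_le_of_lt (Finset.le_sup (f := fun x => f (c x)) hx) hp) hℓ y str hyx hX m

end Pool.Agent.V5helper87.LP
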